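import Mathlib

/-!
Maximin shares with additive valuations: definitions and a criterion for upper bounds.
-/

set_option autoImplicit false

namespace Pool.Agent.TH92.MMS

/-- The value of bundle `j` of the allocation `A` of the goods `G` to `n` agents, for the additive
valuation with values `v`. -/
noncomputable def bundleVal {n : ℕ} {G : Type} [Fintype G] (v : G → ℝ) (A : G → Fin n)
    (j : Fin n) : ℝ :=
  ∑ g, if A g = j then v g else 0

/-- The maximin share of an agent with values `v` among `n` agents. -/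
noncomputable def mms (n : ℕ) {G : Type} [Fintype G] (v : G → ℝ) : ℝ :=
  ⨆ P : G → Fin n, ⨅ j, bundleVal v P j

/-- The allocation `A` (agent `i` gets bundle `i`) is `α`-MMS for the valuations `v`. -/
def IsAlphaMMS {n : ℕ} {G : Type} [Fintype G] (α : ℝ) (v : Fin n → G → ℝ) (A : G → Fin n) :
    Prop :=
  ∀ i, α * mms n (v i) ≤ bundleVal (v i) A i

/-- Every additive instance with `n` agents admits an `α`-MMS allocation. -/
def Guaranteed (n : ℕ) (α : ℝ) : Prop :=
  ∀ (m : ℕ) (v : Fin n → Fin m → ℝ), (∀ i g, 0 ≤ v i g) → ∃ A, IsAlphaMMS α v A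

/-- The constant `α*(n)`. -/
noncomputable def alphaStar (n : ℕ) : ℝ :=
  sSup {α : ℝ | 0 < α ∧ α ≤ 1 ∧ Guaranteed n α}

theorem bundleVal_equiv {n : ℕ} {G H : Type} [Fintype G] [Fintype H] (e : G ≃ H) (v : G → ℝ)
    (A : H → Fin n) (j : Fin n) :
    bundleVal (fun h => v (e.symm h)) A j = bundleVal v (fun g => A (e g)) j := by
  unfold bundleVal
  rw [← e.sum_comp]
  simp

theorem le_mms {n : ℕ} [NeZero n] {G : Type} [Fintype G] (v : G → ℝ) (P : G → Fin n) (c : ℝ)
    (h : ∀ j, c ≤ bundleVal v P j) : c ≤ mms n v := by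
  classical
  have : Nonempty (Fin n) := ⟨0⟩
  refine le_trans (le_ciInf h) ?_
  exact le_ciSup (f := fun P : G → Fin n => ⨅ j, bundleVal v P j)
    (Set.finite_range _).bddAbove P

/-- Criterion for an instance without an `α`-MMS allocation for any `α > c`. -/
theorem exists_bad {n m : ℕ} [NeZero n] {G : Type} [Fintype G] (hm : Fintype.card G = m)
    (v : Fin n → G → ℝ) (hv : ∀ i g, 0 < v i g) (K : Fin n → ℝ) (hK : ∀ i, 0 < K i)
    (P : Fin n → G → Fin n) (hP : ∀ i j, K i ≤ bundleVal (v i) (P i) j) (c : ℝ) (hc : 0 ≤ c)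
    (hA : ∀ A : G → Fin n, ∃ i, bundleVal (v i) A i ≤ c * K i) :
    ∃ w : Fin n → Fin m → ℝ, (∀ i g, 0 < w i g) ∧
      ∀ α : ℝ, c < α → ∀ A, ¬ IsAlphaMMS α w A := by
  classical
  let e : G ≃ Fin m := Fintype.equivFinOfCardEq hm
  refine ⟨fun i g => v i (e.symm g), fun i g => hv _ _, fun α hlt A hA' => ?_⟩
  obtain ⟨i, hi⟩ := hA fun g => A (e g)
  have h1 := hA' i
  rw [bundleVal_equiv e (v i) A i] at h1
  have h2 : K i ≤ mms n (fun g => v i (e.symm g)) := by
    refine le_mms _ (fun h => P i (e.symm h)) _ fun j => ?_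
    rw [bundleVal_equiv e (v i)]
    simpa using hP i j
  have h3 : c * K i < α * mms n (fun g => v i (e.symm g)) :=
    lt_of_lt_of_le (mul_lt_mul_of_pos_right hlt (hK i))
      (mul_le_mul_of_nonneg_left h2 (hc.trans hlt.le))
  linarith

/-- A bad instance bounds `α*(n)`. -/
theorem alphaStar_le {n m : ℕ} (c : ℝ) (hc : 0 ≤ c) (h : ∃ w : Fin n → Fin m → ℝ,
    (∀ i g, 0 < w i g) ∧ ∀ α : ℝ, c < α → ∀ A, ¬ IsAlphaMMS α w A) : alphaStar n ≤ c := by
  obtain ⟨w, hw, h⟩ := h
  refine Real.sSup_le (fun α hα => ?_) hc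
  by_contra hlt
  push Not at hlt
  obtain ⟨A, hA⟩ := hα.2.2 m w fun i g => (hw i g).le
  exact h α hlt A hA

end Pool.Agent.TH92.MMS
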