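import Pool.Agent.TH92.MMS.Defs

/-!
A family of instances with `k + 4` agents and `2 k + 11` goods: combinatorial part.
-/

set_option autoImplicit false

namespace Pool.Agent.TH92.MMS.Family

open Finset

/-- The goods: nine core goods, `k + 1` goods of type A and `k + 1` goods of type B. -/
abbrev Goods (k : ℕ) : Type := Fin 9 ⊕ Fin (k + 1) ⊕ Fin (k + 1)

/-- Values of the core goods for the first two agents. -/
def rC (k : ℕ) : Fin 9 → ℤ :=
  ![4 * k + 20, 2, k + 7, k + 7, 1, 2 * k + 10, 2 * k + 12, 2 * k + 11, 2]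

/-- Values of the core goods for the other agents. -/
def cC (k : ℕ) : Fin 9 → ℤ :=
  ![2 * k + 27, 5, 10, 11, 1, k + 16, k + 18, k + 17, 4]

/-- Auxiliary common values of the core goods. -/
def uC : Fin 9 → ℤ := ![39, 8, 15, 17, 3, 22, 26, 25, 7]

/-- Values of all goods for the first two agents. -/
def r (k : ℕ) : Goods k → ℤ :=
  Sum.elim (rC k) (Sum.elim (fun j => 3 * k + 15 - (j : ℕ)) (fun j => k + 9 + (j : ℕ)))

/-- Values of all goods for the other agents. -/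
def c (k : ℕ) : Goods k → ℤ :=
  Sum.elim (cC k) (Sum.elim (fun j => if j = 0 then 2 * k + 25 else 2 * k + 24 - (j : ℕ))
    (fun j => 14 + (j : ℕ)))

/-- Auxiliary common values of all goods. -/
def u (k : ℕ) : Goods k → ℤ :=
  Sum.elim uC (Sum.elim (fun _ => 34) (fun _ => 20))

/-- Value of bundle `t`. -/
def S {k n : ℕ} (f : Goods k → ℤ) (A : Goods k → Fin n) (t : Fin n) : ℤ :=
  ∑ g, if A g = t then f g else 0

/-- Number of goods of type A in bundle `t`. -/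
def cntA {k n : ℕ} (A : Goods k → Fin n) (t : Fin n) : ℕ :=
  (univ.filter fun j : Fin (k + 1) => A (Sum.inr (Sum.inl j)) = t).card

/-- Number of goods of type B in bundle `t`. -/
def cntB {k n : ℕ} (A : Goods k → Fin n) (t : Fin n) : ℕ :=
  (univ.filter fun j : Fin (k + 1) => A (Sum.inr (Sum.inr j)) = t).card

theorem S_elim {k n : ℕ} (f : Fin 9 → ℤ) (a b : Fin (k + 1) → ℤ) (A : Goods k → Fin n)
    (t : Fin n) : S (Sum.elim f (Sum.elim a b)) A t =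
      (∑ i, if A (Sum.inl i) = t then f i else 0) +
      ((∑ j, if A (Sum.inr (Sum.inl j)) = t then a j else 0) +
        ∑ j, if A (Sum.inr (Sum.inr j)) = t then b j else 0) := by
  simp [S, Fintype.sum_sum_type]

theorem core_sum {k n : ℕ} (f : Fin 9 → ℤ) (A : Goods k → Fin n) (t : Fin n) :
    (∑ i, if A (Sum.inl i) = t then f i else 0) =
      ∑ i, ((decide (A (Sum.inl i) = t)).toNat : ℤ) * f i := by
  refine sum_congr rfl fun i _ => ?_
  by_cases h : A (Sum.inl i) = t <;> simp [h]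

theorem sum_le_cnt {m : ℕ} {p : Fin m → Prop} [DecidablePred p] (f : Fin m → ℤ) (M : ℤ)
    (h : ∀ j, f j ≤ M) : (∑ j, if p j then f j else 0) ≤ (univ.filter p).card * M := by
  rw [← sum_filter]
  calc ∑ j ∈ univ.filter p, f j ≤ ∑ _j ∈ univ.filter p, M := sum_le_sum fun j _ => h j
    _ = (univ.filter p).card * M := by simp

theorem keyR : ∀ b0 b1 b2 b3 b4 b5 b6 b7 b8 : Bool, ∀ a : Fin 2, ∀ c : Fin 3,
    b0.toNat * 39 + b1.toNat * 8 + b2.toNat * 15 + b3.toNat * 17 + b4.toNat * 3 + b5.toNat * 22 +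
      b6.toNat * 26 + b7.toNat * 25 + b8.toNat * 7 + 34 * (a : ℕ) + 20 * (c : ℕ) ≤ 53 →
    b0.toNat * 4 + b2.toNat * 1 + b3.toNat * 1 + b5.toNat * 2 + b6.toNat * 2 + b7.toNat * 2 +
      3 * (a : ℕ) + 2 * (c : ℕ) ≤ 4 ∧
    b0.toNat * 24 + b1.toNat * 2 + b2.toNat * 8 + b3.toNat * 8 + b4.toNat * 1 + b5.toNat * 12 +
      b6.toNat * 14 + b7.toNat * 13 + b8.toNat * 2 + 18 * (a : ℕ) + 11 * (c : ℕ) ≤ 27 := by
  decide +kernel

theorem keyC : ∀ b0 b1 b2 b3 b4 b5 b6 b7 b8 : Bool, ∀ a : Fin 2, ∀ c : Fin 3,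
    b0.toNat * 39 + b1.toNat * 8 + b2.toNat * 15 + b3.toNat * 17 + b4.toNat * 3 + b5.toNat * 22 +
      b6.toNat * 26 + b7.toNat * 25 + b8.toNat * 7 + 34 * (a : ℕ) + 20 * (c : ℕ) ≤ 53 →
    b0.toNat * 2 + b5.toNat * 1 + b6.toNat * 1 + b7.toNat * 1 + 2 * (a : ℕ) + 1 * (c : ℕ) ≤ 2 ∧
    b0.toNat * 29 + b1.toNat * 5 + b2.toNat * 10 + b3.toNat * 11 + b4.toNat * 1 + b5.toNat * 17 +
      b6.toNat * 19 + b7.toNat * 18 + b8.toNat * 4 + 27 * (a : ℕ) + 15 * (c : ℕ) ≤ 38 := by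
  decide +kernel

theorem keyU : ∀ b0 b1 b2 b3 b4 b5 b6 b7 b8 : Bool, ∀ a : Fin 2, ∀ c : Fin 3,
    b0.toNat * 39 + b1.toNat * 8 + b2.toNat * 15 + b3.toNat * 17 + b4.toNat * 3 + b5.toNat * 22 +
      b6.toNat * 26 + b7.toNat * 25 + b8.toNat * 7 + 34 * (a : ℕ) + 20 * (c : ℕ) = 54 →
    (([b0, b1, b2, b3, b4, b5, b6, b7, b8], (a : ℕ), (c : ℕ)) : List Bool × ℕ × ℕ) ∈
    ([([true, false, true, false, false, false, false, false, false], 0, 0),
      ([true, true, false, false, false, false, false, false, true], 0, 0),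
      ([false, false, true, true, false, true, false, false, false], 0, 0),
      ([false, false, false, false, true, false, true, true, false], 0, 0),
      ([false, false, false, false, false, true, false, true, true], 0, 0),
      ([false, true, false, false, false, false, true, false, false], 0, 1),
      ([false, false, false, true, true, false, false, false, false], 1, 0),
      ([false, true, false, true, true, false, true, false, false], 0, 0),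
      ([false, true, false, true, false, true, false, false, true], 0, 0),
      ([false, false, false, false, false, false, false, false, false], 1, 1)] : List (List Bool × ℕ × ℕ)) := by
  decide +kernel

section

variable {k n : ℕ} (A : Goods k → Fin n) (t : Fin n)

theorem S_u : S (u k) A t = (∑ i, ((decide (A (Sum.inl i) = t)).toNat : ℤ) * uC i) +
    34 * cntA A t + 20 * cntB A t := by
  unfold u
  rw [S_elim, core_sum]
  have h1 : (∑ j : Fin (k + 1), if A (Sum.inr (Sum.inl j)) = t then (34 : ℤ) else 0) =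
      34 * cntA A t := by
    rw [← sum_filter, sum_const, cntA]
    simp [mul_comm]
  have h2 : (∑ j : Fin (k + 1), if A (Sum.inr (Sum.inr j)) = t then (20 : ℤ) else 0) =
      20 * cntB A t := by
    rw [← sum_filter, sum_const, cntB]
    simp [mul_comm]
  rw [h1, h2]
  ring

theorem S_r_le : S (r k) A t ≤ (∑ i, ((decide (A (Sum.inl i) = t)).toNat : ℤ) * rC k i) +
    cntA A t * (3 * k + 15) + cntB A t * (2 * k + 9) := by
  unfold r
  rw [S_elim, core_sum, add_assoc]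
  gcongr
  · exact sum_le_cnt _ _ fun j => by omega
  · exact sum_le_cnt _ _ fun j => by omega

theorem S_c_le : S (c k) A t ≤ (∑ i, ((decide (A (Sum.inl i) = t)).toNat : ℤ) * cC k i) +
    cntA A t * (2 * k + 25) + cntB A t * (k + 14) := by
  unfold c
  rw [S_elim, core_sum, add_assoc]
  gcongr
  · refine sum_le_cnt _ _ fun j => ?_
    split_ifs <;> omega
  · exact sum_le_cnt _ _ fun j => by omega

theorem sum9 (f : Fin 9 → ℤ) :
    ∑ i, f i = f 0 + f 1 + f 2 + f 3 + f 4 + f 5 + f 6 + f 7 + f 8 := by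
  rw [Fin.sum_univ_castSucc, Fin.sum_univ_eight]
  rfl

theorem S_u' : S (u k) A t =
    (decide (A (Sum.inl 0) = t)).toNat * 39 + (decide (A (Sum.inl 1) = t)).toNat * 8 +
    (decide (A (Sum.inl 2) = t)).toNat * 15 + (decide (A (Sum.inl 3) = t)).toNat * 17 +
    (decide (A (Sum.inl 4) = t)).toNat * 3 + (decide (A (Sum.inl 5) = t)).toNat * 22 +
    (decide (A (Sum.inl 6) = t)).toNat * 26 + (decide (A (Sum.inl 7) = t)).toNat * 25 +
    (decide (A (Sum.inl 8) = t)).toNat * 7 + 34 * cntA A t + 20 * cntB A t := by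
  rw [S_u, sum9]
  rfl

theorem low_r (hk : 1 ≤ k) (h : S (u k) A t ≤ 53) : S (r k) A t ≤ 4 * k + 23 := by
  refine (S_r_le A t).trans ?_
  rw [S_u'] at h
  have ha : cntA A t < 2 := by omega
  have hb : cntB A t < 3 := by omega
  have key := keyR (decide (A (Sum.inl 0) = t)) (decide (A (Sum.inl 1) = t)) (decide (A (Sum.inl 2) = t)) (decide (A (Sum.inl 3) = t)) (decide (A (Sum.inl 4) = t)) (decide (A (Sum.inl 5) = t)) (decide (A (Sum.inl 6) = t)) (decide (A (Sum.inl 7) = t)) (decide (A (Sum.inl 8) = t))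
    ⟨cntA A t, ha⟩ ⟨cntB A t, hb⟩ (by dsimp only; omega)
  dsimp only at key
  rw [sum9]
  simp only [rC]
  obtain ⟨h1, h2⟩ := key
  generalize (decide (A (Sum.inl 0) = t)).toNat = z0 at *
  generalize (decide (A (Sum.inl 1) = t)).toNat = z1 at *
  generalize (decide (A (Sum.inl 2) = t)).toNat = z2 at *
  generalize (decide (A (Sum.inl 3) = t)).toNat = z3 at *
  generalize (decide (A (Sum.inl 4) = t)).toNat = z4 at *
  generalize (decide (A (Sum.inl 5) = t)).toNat = z5 at *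
  generalize (decide (A (Sum.inl 6) = t)).toNat = z6 at *
  generalize (decide (A (Sum.inl 7) = t)).toNat = z7 at *
  generalize (decide (A (Sum.inl 8) = t)).toNat = z8 at *
  generalize cntA A t = x at *
  generalize cntB A t = y at *
  zify at h1 h2 hk
  have h3 := mul_le_mul_of_nonneg_right h1 (sub_nonneg.2 hk)
  simp
  nlinarith [h3]

theorem low_c (hk : 1 ≤ k) (h : S (u k) A t ≤ 53) : S (c k) A t ≤ 2 * k + 36 := by
  refine (S_c_le A t).trans ?_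
  rw [S_u'] at h
  have ha : cntA A t < 2 := by omega
  have hb : cntB A t < 3 := by omega
  have key := keyC (decide (A (Sum.inl 0) = t)) (decide (A (Sum.inl 1) = t)) (decide (A (Sum.inl 2) = t)) (decide (A (Sum.inl 3) = t)) (decide (A (Sum.inl 4) = t)) (decide (A (Sum.inl 5) = t)) (decide (A (Sum.inl 6) = t)) (decide (A (Sum.inl 7) = t)) (decide (A (Sum.inl 8) = t))
    ⟨cntA A t, ha⟩ ⟨cntB A t, hb⟩ (by dsimp only; omega)
  dsimp only at key
  rw [sum9]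
  simp only [cC]
  obtain ⟨h1, h2⟩ := key
  generalize (decide (A (Sum.inl 0) = t)).toNat = z0 at *
  generalize (decide (A (Sum.inl 1) = t)).toNat = z1 at *
  generalize (decide (A (Sum.inl 2) = t)).toNat = z2 at *
  generalize (decide (A (Sum.inl 3) = t)).toNat = z3 at *
  generalize (decide (A (Sum.inl 4) = t)).toNat = z4 at *
  generalize (decide (A (Sum.inl 5) = t)).toNat = z5 at *
  generalize (decide (A (Sum.inl 6) = t)).toNat = z6 at *
  generalize (decide (A (Sum.inl 7) = t)).toNat = z7 at *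
  generalize (decide (A (Sum.inl 8) = t)).toNat = z8 at *
  generalize cntA A t = x at *
  generalize cntB A t = y at *
  zify at h1 h2 hk
  have h3 := mul_le_mul_of_nonneg_right h1 (sub_nonneg.2 hk)
  simp
  nlinarith [h3]

/-- The possible bundles of common value 54. -/
def Cases : Prop :=
    (A (Sum.inl 0) = t ∧ A (Sum.inl 1) ≠ t ∧ A (Sum.inl 2) = t ∧ A (Sum.inl 3) ≠ t ∧ A (Sum.inl 4) ≠ t ∧ A (Sum.inl 5) ≠ t ∧ A (Sum.inl 6) ≠ t ∧ A (Sum.inl 7) ≠ t ∧ A (Sum.inl 8) ≠ t ∧ cntA A t = 0 ∧ cntB A t = 0) ∨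
    (A (Sum.inl 0) = t ∧ A (Sum.inl 1) = t ∧ A (Sum.inl 2) ≠ t ∧ A (Sum.inl 3) ≠ t ∧ A (Sum.inl 4) ≠ t ∧ A (Sum.inl 5) ≠ t ∧ A (Sum.inl 6) ≠ t ∧ A (Sum.inl 7) ≠ t ∧ A (Sum.inl 8) = t ∧ cntA A t = 0 ∧ cntB A t = 0) ∨
    (A (Sum.inl 0) ≠ t ∧ A (Sum.inl 1) ≠ t ∧ A (Sum.inl 2) = t ∧ A (Sum.inl 3) = t ∧ A (Sum.inl 4) ≠ t ∧ A (Sum.inl 5) = t ∧ A (Sum.inl 6) ≠ t ∧ A (Sum.inl 7) ≠ t ∧ A (Sum.inl 8) ≠ t ∧ cntA A t = 0 ∧ cntB A t = 0) ∨
    (A (Sum.inl 0) ≠ t ∧ A (Sum.inl 1) ≠ t ∧ A (Sum.inl 2) ≠ t ∧ A (Sum.inl 3) ≠ t ∧ A (Sum.inl 4) = t ∧ A (Sum.inl 5) ≠ t ∧ A (Sum.inl 6) = t ∧ A (Sum.inl 7) = t ∧ A (Sum.inl 8) ≠ t ∧ cntA A t = 0 ∧ cntB A t = 0) ∨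
    (A (Sum.inl 0) ≠ t ∧ A (Sum.inl 1) ≠ t ∧ A (Sum.inl 2) ≠ t ∧ A (Sum.inl 3) ≠ t ∧ A (Sum.inl 4) ≠ t ∧ A (Sum.inl 5) = t ∧ A (Sum.inl 6) ≠ t ∧ A (Sum.inl 7) = t ∧ A (Sum.inl 8) = t ∧ cntA A t = 0 ∧ cntB A t = 0) ∨
    (A (Sum.inl 0) ≠ t ∧ A (Sum.inl 1) = t ∧ A (Sum.inl 2) ≠ t ∧ A (Sum.inl 3) ≠ t ∧ A (Sum.inl 4) ≠ t ∧ A (Sum.inl 5) ≠ t ∧ A (Sum.inl 6) = t ∧ A (Sum.inl 7) ≠ t ∧ A (Sum.inl 8) ≠ t ∧ cntA A t = 0 ∧ cntB A t = 1) ∨
    (A (Sum.inl 0) ≠ t ∧ A (Sum.inl 1) ≠ t ∧ A (Sum.inl 2) ≠ t ∧ A (Sum.inl 3) = t ∧ A (Sum.inl 4) = t ∧ A (Sum.inl 5) ≠ t ∧ A (Sum.inl 6) ≠ t ∧ A (Sum.inl 7) ≠ t ∧ A (Sum.inl 8) ≠ t ∧ cntA A t = 1 ∧ cntB A t = 0) ∨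
    (A (Sum.inl 0) ≠ t ∧ A (Sum.inl 1) = t ∧ A (Sum.inl 2) ≠ t ∧ A (Sum.inl 3) = t ∧ A (Sum.inl 4) = t ∧ A (Sum.inl 5) ≠ t ∧ A (Sum.inl 6) = t ∧ A (Sum.inl 7) ≠ t ∧ A (Sum.inl 8) ≠ t ∧ cntA A t = 0 ∧ cntB A t = 0) ∨
    (A (Sum.inl 0) ≠ t ∧ A (Sum.inl 1) = t ∧ A (Sum.inl 2) ≠ t ∧ A (Sum.inl 3) = t ∧ A (Sum.inl 4) ≠ t ∧ A (Sum.inl 5) = t ∧ A (Sum.inl 6) ≠ t ∧ A (Sum.inl 7) ≠ t ∧ A (Sum.inl 8) = t ∧ cntA A t = 0 ∧ cntB A t = 0) ∨
    (A (Sum.inl 0) ≠ t ∧ A (Sum.inl 1) ≠ t ∧ A (Sum.inl 2) ≠ t ∧ A (Sum.inl 3) ≠ t ∧ A (Sum.inl 4) ≠ t ∧ A (Sum.inl 5) ≠ t ∧ A (Sum.inl 6) ≠ t ∧ A (Sum.inl 7) ≠ t ∧ A (Sum.inl 8) ≠ t ∧ cntA A t = 1 ∧ cntB A t = 1)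

theorem cases_of (h : S (u k) A t = 54) : Cases A t := by
  rw [S_u'] at h
  have ha : cntA A t < 2 := by omega
  have hb : cntB A t < 3 := by omega
  have key := keyU (decide (A (Sum.inl 0) = t)) (decide (A (Sum.inl 1) = t)) (decide (A (Sum.inl 2) = t)) (decide (A (Sum.inl 3) = t)) (decide (A (Sum.inl 4) = t)) (decide (A (Sum.inl 5) = t)) (decide (A (Sum.inl 6) = t)) (decide (A (Sum.inl 7) = t)) (decide (A (Sum.inl 8) = t))
    ⟨cntA A t, ha⟩ ⟨cntB A t, hb⟩ (by dsimp only; omega)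
  dsimp only at key
  simp only [List.mem_cons, Prod.mk.injEq, List.cons.injEq, List.not_mem_nil, or_false, and_true,
    decide_eq_true_eq, decide_eq_false_iff_not, and_assoc] at key
  exact key

theorem partA0 (h : cntA A t = 0) (a : Fin (k + 1) → ℤ) :
    (∑ j, if A (Sum.inr (Sum.inl j)) = t then a j else 0) = 0 := by
  rw [← sum_filter, card_eq_zero.1 h, sum_empty]

theorem partB0 (h : cntB A t = 0) (a : Fin (k + 1) → ℤ) :
    (∑ j, if A (Sum.inr (Sum.inr j)) = t then a j else 0) = 0 := by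
  rw [← sum_filter, card_eq_zero.1 h, sum_empty]

theorem partA1 (h : cntA A t = 1) : ∃ j, A (Sum.inr (Sum.inl j)) = t ∧
    ∀ a : Fin (k + 1) → ℤ, (∑ j, if A (Sum.inr (Sum.inl j)) = t then a j else 0) = a j := by
  obtain ⟨j, hj⟩ := card_eq_one.1 h
  refine ⟨j, ?_, fun a => ?_⟩
  · have : j ∈ univ.filter fun j : Fin (k + 1) => A (Sum.inr (Sum.inl j)) = t := by
      rw [hj]; exact mem_singleton_self j
    exact (mem_filter.1 this).2
  · rw [← sum_filter, hj, sum_singleton]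

theorem partB1 (h : cntB A t = 1) : ∃ j, A (Sum.inr (Sum.inr j)) = t ∧
    ∀ a : Fin (k + 1) → ℤ, (∑ j, if A (Sum.inr (Sum.inr j)) = t then a j else 0) = a j := by
  obtain ⟨j, hj⟩ := card_eq_one.1 h
  refine ⟨j, ?_, fun a => ?_⟩
  · have : j ∈ univ.filter fun j : Fin (k + 1) => A (Sum.inr (Sum.inr j)) = t := by
      rw [hj]; exact mem_singleton_self j
    exact (mem_filter.1 this).2
  · rw [← sum_filter, hj, sum_singleton]

theorem S_total (f : Goods k → ℤ) : ∑ t, S f A t = ∑ g, f g := by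
  unfold S
  rw [sum_comm]
  simp

end

section

variable {k : ℕ} (A : Goods k → Fin (k + 4))

theorem u_total (k : ℕ) : ∑ g, u k g = 54 * (k + 4) := by
  simp [u, Fintype.sum_sum_type, sum9, uC]
  ring

theorem c_total (k : ℕ) : ∑ g, c k g = (2 * k + 37) * (k + 4) := by
  simp only [c, Fintype.sum_sum_type, Sum.elim_inl, Sum.elim_inr]
  rw [Fin.sum_univ_succ (fun j : Fin (k + 1) => if j = 0 then (2 * k + 25 : ℤ) else
    2 * k + 24 - (j : ℕ)), Fin.sum_univ_castSucc (fun j : Fin (k + 1) => (14 + (j : ℕ) : ℤ)), sum9]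
  have h : (∑ i : Fin k, if i.succ = 0 then (2 * k + 25 : ℤ) else 2 * k + 24 - (i.succ : ℕ)) +
      ∑ i : Fin k, (14 + (i.castSucc : ℕ) : ℤ) = k * (2 * k + 37) := by
    rw [← sum_add_distrib]
    rw [sum_congr rfl (g := fun _ => (2 * k + 37 : ℤ))]
    · simp
    · intro i _
      rw [if_neg (Fin.succ_ne_zero i)]
      simp
      ring
  simp [cC] at h ⊢
  linarith

theorem u_eq (hk : 1 ≤ k) (hr : ∀ t, t.val < 2 → 4 * (k : ℤ) + 24 ≤ S (r k) A t)
    (hc : ∀ t, 2 ≤ t.val → 2 * (k : ℤ) + 37 ≤ S (c k) A t) (t : Fin (k + 4)) :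
    S (u k) A t = 54 := by
  have h1 : ∀ t, (54 : ℤ) ≤ S (u k) A t := by
    intro t
    by_contra hlt
    rcases lt_or_ge t.val 2 with ht | ht
    · have := low_r A t hk (by omega)
      have := hr t ht
      omega
    · have := low_c A t hk (by omega)
      have := hc t ht
      omega
  have h2 : ∑ _t : Fin (k + 4), (54 : ℤ) = ∑ t, S (u k) A t := by
    rw [S_total, u_total]
    simp [mul_comm]
  exact (((sum_eq_sum_iff_of_le fun t _ => h1 t).1 h2) t (mem_univ t)).symm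

end

end Pool.Agent.TH92.MMS.Family
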