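import Pool.Agent.TH92.MMS.Family

/-!
A family of instances with `k + 4` agents and `2 k + 11` goods: no allocation gives everybody
her maximin share.
-/

set_option autoImplicit false

namespace Pool.Agent.TH92.MMS.Family

open Finset

section

variable {k n : ℕ} (A : Goods k → Fin n) (t : Fin n)

theorem r_split : S (r k) A t = (∑ i, if A (Sum.inl i) = t then rC k i else 0) +
    ((∑ j : Fin (k + 1), if A (Sum.inr (Sum.inl j)) = t then (3 * k + 15 - (j : ℕ) : ℤ) else 0) +
      ∑ j : Fin (k + 1), if A (Sum.inr (Sum.inr j)) = t then (k + 9 + (j : ℕ) : ℤ) else 0) := by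
  unfold r
  rw [S_elim]

theorem c_split : S (c k) A t = (∑ i, if A (Sum.inl i) = t then cC k i else 0) +
    ((∑ j : Fin (k + 1), if A (Sum.inr (Sum.inl j)) = t then
        (if j = 0 then 2 * k + 25 else 2 * k + 24 - (j : ℕ) : ℤ) else 0) +
      ∑ j : Fin (k + 1), if A (Sum.inr (Sum.inr j)) = t then (14 + (j : ℕ) : ℤ) else 0) := by
  unfold c
  rw [S_elim]

/-- The bundles possible for an agent of the first kind. -/
theorem low_cases (hk : 1 ≤ k) (hr : 4 * (k : ℤ) + 24 ≤ S (r k) A t) (h : Cases A t) :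
    (A (Sum.inl 0) = t ∧ A (Sum.inl 2) = t ∧ A (Sum.inl 5) ≠ t ∧ A (Sum.inl 4) ≠ t ∧
      S (c k) A t = 2 * k + 37) ∨
    (A (Sum.inl 0) = t ∧ A (Sum.inl 8) = t ∧ A (Sum.inl 2) ≠ t ∧ A (Sum.inl 5) ≠ t ∧
      A (Sum.inl 4) ≠ t) ∨
    (A (Sum.inl 0) ≠ t ∧ A (Sum.inl 2) = t ∧ A (Sum.inl 3) = t ∧ A (Sum.inl 5) = t ∧
      A (Sum.inl 4) ≠ t) ∨
    (A (Sum.inl 0) ≠ t ∧ A (Sum.inl 4) = t ∧ A (Sum.inl 5) ≠ t ∧ A (Sum.inl 7) = t) ∨
    (A (Sum.inl 0) ≠ t ∧ A (Sum.inl 5) ≠ t ∧ A (Sum.inl 4) ≠ t ∧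
      (A (Sum.inr (Sum.inl 0)) ≠ t → 2 * (k : ℤ) + 38 ≤ S (c k) A t)) := by
  rw [r_split] at hr
  rw [c_split]
  rcases h with h | h | h | h | h | h | h | h | h | h <;>
    obtain ⟨h0, h1, h2, h3, h4, h5, h6, h7, h8, hA, hB⟩ := h
  · left
    rw [partA0 A t hA, partB0 A t hB]
    refine ⟨h0, h2, h5, h4, ?_⟩
    simp only [sum9, if_pos h0, if_neg h1, if_pos h2, if_neg h3, if_neg h4, if_neg h5, if_neg h6,
      if_neg h7, if_neg h8]
    simp [cC]
    ring
  · right; left
    exact ⟨h0, h8, h2, h5, h4⟩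
  · right; right; left
    exact ⟨h0, h2, h3, h5, h4⟩
  · right; right; right; left
    exact ⟨h0, h4, h5, h7⟩
  · exfalso
    rw [partA0 A t hA, partB0 A t hB] at hr
    simp only [sum9, if_neg h0, if_neg h1, if_neg h2, if_neg h3, if_neg h4, if_pos h5, if_neg h6,
      if_pos h7, if_pos h8] at hr
    simp [rC] at hr
    omega
  · exfalso
    obtain ⟨j, hj, hj'⟩ := partB1 A t hB
    rw [partA0 A t hA, hj'] at hr
    simp only [sum9, if_neg h0, if_pos h1, if_neg h2, if_neg h3, if_neg h4, if_neg h5, if_pos h6,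
      if_neg h7, if_neg h8] at hr
    simp [rC] at hr
    omega
  · exfalso
    obtain ⟨j, hj, hj'⟩ := partA1 A t hA
    rw [partB0 A t hB, hj'] at hr
    simp only [sum9, if_neg h0, if_neg h1, if_neg h2, if_pos h3, if_pos h4, if_neg h5, if_neg h6,
      if_neg h7, if_neg h8] at hr
    simp [rC] at hr
    omega
  · exfalso
    rw [partA0 A t hA, partB0 A t hB] at hr
    simp only [sum9, if_neg h0, if_pos h1, if_neg h2, if_pos h3, if_pos h4, if_neg h5, if_pos h6,
      if_neg h7, if_neg h8] at hr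
    simp [rC] at hr
    omega
  · exfalso
    rw [partA0 A t hA, partB0 A t hB] at hr
    simp only [sum9, if_neg h0, if_pos h1, if_neg h2, if_pos h3, if_neg h4, if_pos h5, if_neg h6,
      if_neg h7, if_pos h8] at hr
    simp [rC] at hr
    omega
  · right; right; right; right
    refine ⟨h0, h5, h4, fun hne => ?_⟩
    obtain ⟨j, hj, hj'⟩ := partA1 A t hA
    obtain ⟨i, hi, hi'⟩ := partB1 A t hB
    rw [hj', hi'] at hr
    rw [hj', hi']
    have hj0 : j ≠ 0 := by
      rintro rfl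
      exact hne hj
    rw [if_neg hj0]
    simp only [sum9, if_neg h0, if_neg h1, if_neg h2, if_neg h3, if_neg h4, if_neg h5, if_neg h6,
      if_neg h7, if_neg h8] at hr ⊢
    omega

/-- The bundles possible for an agent of the second kind. -/
theorem high_cases (hk : 1 ≤ k) (hc : 2 * (k : ℤ) + 37 ≤ S (c k) A t) (h : Cases A t) :
    (A (Sum.inl 0) = t ∧ A (Sum.inl 2) = t ∧ A (Sum.inl 5) ≠ t ∧ A (Sum.inl 4) ≠ t) ∨
    (A (Sum.inl 0) ≠ t ∧ A (Sum.inl 5) = t ∧ A (Sum.inl 4) ≠ t ∧ A (Sum.inl 7) = t ∧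
      A (Sum.inl 8) = t) ∨
    (A (Sum.inl 0) ≠ t ∧ A (Sum.inl 5) ≠ t ∧ A (Sum.inl 3) = t ∧ A (Sum.inl 4) = t ∧
      A (Sum.inr (Sum.inl 0)) = t) ∨
    (A (Sum.inl 0) ≠ t ∧ A (Sum.inl 5) ≠ t ∧ A (Sum.inl 4) ≠ t) := by
  rw [c_split] at hc
  rcases h with h | h | h | h | h | h | h | h | h | h <;>
    obtain ⟨h0, h1, h2, h3, h4, h5, h6, h7, h8, hA, hB⟩ := h
  · left
    exact ⟨h0, h2, h5, h4⟩
  · exfalso
    rw [partA0 A t hA, partB0 A t hB] at hc
    simp only [sum9, if_pos h0, if_pos h1, if_neg h2, if_neg h3, if_neg h4, if_neg h5, if_neg h6,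
      if_neg h7, if_pos h8] at hc
    simp [cC] at hc
    omega
  · exfalso
    rw [partA0 A t hA, partB0 A t hB] at hc
    simp only [sum9, if_neg h0, if_neg h1, if_pos h2, if_pos h3, if_neg h4, if_pos h5, if_neg h6,
      if_neg h7, if_neg h8] at hc
    simp [cC] at hc
    omega
  · exfalso
    rw [partA0 A t hA, partB0 A t hB] at hc
    simp only [sum9, if_neg h0, if_neg h1, if_neg h2, if_neg h3, if_pos h4, if_neg h5, if_pos h6,
      if_pos h7, if_neg h8] at hc
    simp [cC] at hc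
    omega
  · right; left
    exact ⟨h0, h5, h4, h7, h8⟩
  · right; right; right
    exact ⟨h0, h5, h4⟩
  · right; right; left
    obtain ⟨j, hj, hj'⟩ := partA1 A t hA
    rw [partB0 A t hB, hj'] at hc
    simp only [sum9, if_neg h0, if_neg h1, if_neg h2, if_pos h3, if_pos h4, if_neg h5, if_neg h6,
      if_neg h7, if_neg h8] at hc
    simp [cC] at hc
    refine ⟨h0, h5, h3, h4, ?_⟩
    have hj0 : j = 0 := by
      by_contra hne
      rw [if_neg hne] at hc
      have : (j : ℕ) ≠ 0 := fun h => hne (Fin.ext h)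
      omega
    rw [← hj0]
    exact hj
  · exfalso
    rw [partA0 A t hA, partB0 A t hB] at hc
    simp only [sum9, if_neg h0, if_pos h1, if_neg h2, if_pos h3, if_pos h4, if_neg h5, if_pos h6,
      if_neg h7, if_neg h8] at hc
    simp [cC] at hc
    omega
  · exfalso
    rw [partA0 A t hA, partB0 A t hB] at hc
    simp only [sum9, if_neg h0, if_pos h1, if_neg h2, if_pos h3, if_neg h4, if_pos h5, if_neg h6,
      if_neg h7, if_pos h8] at hc
    simp [cC] at hc
    omega
  · right; right; right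
    exact ⟨h0, h5, h4⟩

end

theorem no_alloc {k : ℕ} (hk : 1 ≤ k) (A : Goods k → Fin (k + 4))
    (hr : ∀ t, t.val < 2 → 4 * (k : ℤ) + 24 ≤ S (r k) A t)
    (hc : ∀ t, 2 ≤ t.val → 2 * (k : ℤ) + 37 ≤ S (c k) A t) : False := by
  have cs : ∀ t, Cases A t := fun t => cases_of A t (u_eq A hk hr hc t)
  have L := fun t (ht : t.val < 2) => low_cases A t hk (hr t ht) (cs t)
  have H := fun t (ht : 2 ≤ t.val) => high_cases A t hk (hc t ht) (cs t)
  clear cs
  -- owner of good 0
  obtain ⟨t0, ht0⟩ : ∃ t, A (Sum.inl 0) = t := ⟨_, rfl⟩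
  obtain ⟨t5, ht5⟩ : ∃ t, A (Sum.inl 5) = t := ⟨_, rfl⟩
  obtain ⟨t4, ht4⟩ : ∃ t, A (Sum.inl 4) = t := ⟨_, rfl⟩
  by_cases hrow : A (Sum.inl 2) = t0
  · -- the owner of good 0 has good 2
    have h5 : 2 ≤ t5.val ∧ A (Sum.inl 7) = t5 ∧ A (Sum.inl 4) ≠ t5 := by
      rcases lt_or_ge t5.val 2 with h | h
      · exfalso
        rcases L t5 h with h' | h' | h' | h' | h'
        · exact h'.2.2.1 ht5
        · exact h'.2.2.2.1 ht5
        · exact h'.1 (ht0.trans (hrow.symm.trans h'.2.1))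
        · exact h'.2.2.1 ht5
        · exact h'.2.1 ht5
      · rcases H t5 h with h' | h' | h' | h'
        · exact absurd ht5 h'.2.2.1
        · exact ⟨h, h'.2.2.2.1, h'.2.2.1⟩
        · exact absurd ht5 h'.2.1
        · exact absurd ht5 h'.2.1
    have h4 : 2 ≤ t4.val ∧ A (Sum.inr (Sum.inl 0)) = t4 := by
      rcases lt_or_ge t4.val 2 with h | h
      · exfalso
        rcases L t4 h with h' | h' | h' | h' | h'
        · exact h'.2.2.2.1 ht4
        · exact h'.2.2.2.2 ht4
        · exact h'.2.2.2.2 ht4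
        · have : t4 = t5 := h'.2.2.2.symm.trans h5.2.1
          exact h5.2.2 (ht4.trans this)
        · exact h'.2.2.1 ht4
      · rcases H t4 h with h' | h' | h' | h'
        · exact absurd ht4 h'.2.2.2
        · exact absurd ht4 h'.2.2.1
        · exact ⟨h, h'.2.2.2.2⟩
        · exact absurd ht4 h'.2.2
    have hlow : ∀ t, t.val < 2 → (A (Sum.inl 0) = t ∧ S (c k) A t = 2 * k + 37) ∨
        (A (Sum.inl 0) ≠ t ∧ 2 * (k : ℤ) + 38 ≤ S (c k) A t) := by
      intro t ht
      rcases L t ht with h' | h' | h' | h' | h'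
      · exact Or.inl ⟨h'.1, h'.2.2.2.2⟩
      · exfalso
        exact h'.2.2.1 (hrow.trans (ht0.symm.trans h'.1))
      · exfalso
        exact h'.1 (ht0.trans (hrow.symm.trans h'.2.1))
      · exfalso
        have : t = t4 := h'.2.1.symm.trans ht4
        have := h4.1
        subst_vars
        omega
      · refine Or.inr ⟨h'.1, h'.2.2.2 fun h => ?_⟩
        have : t = t4 := h.symm.trans h4.2
        have := h4.1
        subst_vars
        omega
    have hall : ∀ t, 2 * (k : ℤ) + 37 ≤ S (c k) A t := by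
      intro t
      rcases lt_or_ge t.val 2 with h | h
      · rcases hlow t h with h' | h'
        · exact h'.2.ge
        · linarith [h'.2]
      · exact hc t h
    have h2 : ∑ _t : Fin (k + 4), (2 * (k : ℤ) + 37) = ∑ t, S (c k) A t := by
      rw [S_total, c_total]
      simp [mul_comm]
    have heq : ∀ t, 2 * (k : ℤ) + 37 = S (c k) A t := fun t =>
      (sum_eq_sum_iff_of_le fun t _ => hall t).1 h2 t (mem_univ t)
    have e : ∀ t : Fin (k + 4), t.val < 2 → A (Sum.inl 0) = t := by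
      intro t ht
      rcases hlow t ht with h' | h'
      · exact h'.1
      · exfalso
        have := heq t
        linarith [h'.2]
    have e0 := e ⟨0, by omega⟩ (by simp)
    have e1 := e ⟨1, by omega⟩ (by simp)
    have := e0.symm.trans e1
    simp at this
  · -- the owner of good 0 has goods 1 and 8
    have h0 : t0.val < 2 ∧ A (Sum.inl 8) = t0 ∧ A (Sum.inl 5) ≠ t0 ∧ A (Sum.inl 4) ≠ t0 := by
      rcases lt_or_ge t0.val 2 with h | h
      · rcases L t0 h with h' | h' | h' | h' | h'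
        · exact absurd h'.2.1 hrow
        · exact ⟨h, h'.2.1, h'.2.2.2.1, h'.2.2.2.2⟩
        · exact absurd ht0 h'.1
        · exact absurd ht0 h'.1
        · exact absurd ht0 h'.1
      · exfalso
        rcases H t0 h with h' | h' | h' | h'
        · exact hrow h'.2.1
        · exact absurd ht0 h'.1
        · exact absurd ht0 h'.1
        · exact absurd ht0 h'.1
    have h5 : t5.val < 2 ∧ A (Sum.inl 3) = t5 ∧ A (Sum.inl 4) ≠ t5 := by
      rcases lt_or_ge t5.val 2 with h | h
      · rcases L t5 h with h' | h' | h' | h' | h'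
        · exact absurd ht5 h'.2.2.1
        · exact absurd ht5 h'.2.2.2.1
        · exact ⟨h, h'.2.2.1, h'.2.2.2.2⟩
        · exact absurd ht5 h'.2.2.1
        · exact absurd ht5 h'.2.1
      · exfalso
        rcases H t5 h with h' | h' | h' | h'
        · exact h'.2.2.1 ht5
        · have : t5 = t0 := h'.2.2.2.2.symm.trans h0.2.1
          exact h0.2.2.1 (ht5.trans this)
        · exact h'.2.1 ht5
        · exact h'.2.1 ht5
    have h4 : t4.val < 2 := by
      rcases lt_or_ge t4.val 2 with h | h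
      · exact h
      · exfalso
        rcases H t4 h with h' | h' | h' | h'
        · exact h'.2.2.2 ht4
        · exact h'.2.2.1 ht4
        · have : t4 = t5 := h'.2.2.1.symm.trans h5.2.1
          exact h5.2.2 (ht4.trans this)
        · exact h'.2.2 ht4
    have n1 : t5 ≠ t0 := fun h => h0.2.2.1 (ht5.trans h)
    have n2 : t4 ≠ t0 := fun h => h0.2.2.2 (ht4.trans h)
    have n3 : t4 ≠ t5 := fun h => h5.2.2 (ht4.trans h)
    have := h0.1
    have := h5.1
    rw [Ne, Fin.ext_iff] at n1 n2 n3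
    omega

end Pool.Agent.TH92.MMS.Family
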