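import Pool.Agent.TH92.MMS.NoAlloc

/-!
A family of instances with `k + 4` agents and `2 k + 11` goods: the maximin partitions.
-/

set_option autoImplicit false

namespace Pool.Agent.TH92.MMS.Family

open Finset

theorem sum_hit {m n : ℕ} (g : Fin m → Fin n) (hg : Function.Injective g) (a : Fin m → ℤ)
    (t : Fin n) (j : Fin m) (hj : g j = t) : (∑ j', if g j' = t then a j' else 0) = a j := by
  rw [Finset.sum_eq_single j]
  · rw [if_pos hj]
  · intro b _ hb
    exact if_neg fun h => hb (hg (h.trans hj.symm))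
  · intro h
    exact absurd (mem_univ j) h

theorem sum_miss {m n : ℕ} (g : Fin m → Fin n) (a : Fin m → ℤ) (t : Fin n) (h : ∀ j, g j ≠ t) :
    (∑ j', if g j' = t then a j' else 0) = 0 :=
  Finset.sum_eq_zero fun j _ => if_neg (h j)

theorem S_elim' {k n : ℕ} (f : Fin 9 → ℤ) (a b : Fin (k + 1) → ℤ) (p : Fin 9 → Fin n)
    (q q' : Fin (k + 1) → Fin n) (t : Fin n) :
    S (Sum.elim f (Sum.elim a b)) (Sum.elim p (Sum.elim q q')) t =
      (∑ i, if p i = t then f i else 0) +
      ((∑ j, if q j = t then a j else 0) + ∑ j, if q' j = t then b j else 0) := by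
  rw [S_elim]
  rfl

/-- Labels of the core goods, first kind of agents. -/
def pR : Fin 9 → ℕ := ![2, 2, 0, 0, 1, 0, 1, 1, 2]

/-- Labels of the core goods, second kind of agents. -/
def pC : Fin 9 → ℕ := ![0, 3, 0, 2, 2, 1, 3, 1, 1]

theorem pR_lt (i : Fin 9) : pR i < 3 := by
  fin_cases i <;> simp [pR]

theorem pC_lt (i : Fin 9) : pC i < 4 := by
  fin_cases i <;> simp [pC]

/-- Partition of the core goods, first kind of agents. -/
def coreR (k : ℕ) (i : Fin 9) : Fin (k + 4) := ⟨pR i, by have := pR_lt i; omega⟩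

/-- Partition of the core goods, second kind of agents. -/
def coreC (k : ℕ) (i : Fin 9) : Fin (k + 4) := ⟨pC i, by have := pC_lt i; omega⟩

/-- Partition of the goods of type A and B, first kind of agents. -/
def restR (k : ℕ) (j : Fin (k + 1)) : Fin (k + 4) := ⟨3 + j.val, by omega⟩

/-- Partition of the goods of type A, second kind of agents. -/
def restA (k : ℕ) (j : Fin (k + 1)) : Fin (k + 4) :=
  ⟨if j.val = 0 then 2 else 3 + j.val, by split_ifs <;> omega⟩

/-- Partition of the goods of type B, second kind of agents. -/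
def restB (k : ℕ) (j : Fin (k + 1)) : Fin (k + 4) :=
  ⟨if j.val = k then 3 else 4 + j.val, by split_ifs <;> omega⟩

/-- A maximin partition for the first two agents. -/
def PR (k : ℕ) : Goods k → Fin (k + 4) :=
  Sum.elim (coreR k) (Sum.elim (restR k) (restR k))

/-- A maximin partition for the other agents. -/
def PC (k : ℕ) : Goods k → Fin (k + 4) :=
  Sum.elim (coreC k) (Sum.elim (restA k) (restB k))

theorem restR_inj (k : ℕ) : Function.Injective (restR k) := by
  intro a b h
  simp only [restR, Fin.mk.injEq] at h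
  exact Fin.ext (by omega)

theorem restA_inj (k : ℕ) : Function.Injective (restA k) := by
  intro a b h
  simp only [restA, Fin.mk.injEq] at h
  refine Fin.ext ?_
  split_ifs at h <;> omega

theorem restB_inj (k : ℕ) : Function.Injective (restB k) := by
  intro a b h
  simp only [restB, Fin.mk.injEq] at h
  refine Fin.ext ?_
  split_ifs at h <;> omega

theorem S_PR (k : ℕ) (t : Fin (k + 4)) : S (r k) (PR k) t = 4 * k + 24 := by
  unfold r PR
  rw [S_elim']
  obtain ⟨t, ht⟩ := t
  rcases lt_or_ge t 3 with h | h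
  · have hm : ∀ j, restR k j ≠ ⟨t, ht⟩ := by
      intro j hj
      rw [restR, Fin.mk.injEq] at hj
      omega
    rw [sum_miss _ _ _ hm, sum_miss _ _ _ hm]
    interval_cases t <;> simp [sum9, coreR, pR, rC, Fin.ext_iff] <;> ring
  · rw [sum_hit (restR k) (restR_inj k) _ ⟨t, ht⟩ ⟨t - 3, by omega⟩
        (by simp only [restR, Fin.mk.injEq]; omega),
      sum_hit (restR k) (restR_inj k) _ ⟨t, ht⟩ ⟨t - 3, by omega⟩
        (by simp only [restR, Fin.mk.injEq]; omega),
      sum_miss (coreR k) _ ⟨t, ht⟩ (fun i hi => by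
        rw [coreR, Fin.mk.injEq] at hi
        have := pR_lt i
        omega)]
    simp only
    ring

theorem S_PC (k : ℕ) (t : Fin (k + 4)) : S (c k) (PC k) t = 2 * k + 37 := by
  unfold c PC
  rw [S_elim']
  obtain ⟨t, ht⟩ := t
  rcases lt_or_ge t 2 with h | h
  · rw [sum_miss (restA k) _ ⟨t, ht⟩
        (fun j hj => by rw [restA, Fin.mk.injEq] at hj; split_ifs at hj <;> omega),
      sum_miss (restB k) _ ⟨t, ht⟩
        (fun j hj => by rw [restB, Fin.mk.injEq] at hj; split_ifs at hj <;> omega)]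
    interval_cases t <;> simp [sum9, coreC, pC, cC, Fin.ext_iff] <;> ring
  rcases h.eq_or_lt with rfl | h
  · rw [sum_hit (restA k) (restA_inj k) _ ⟨2, ht⟩ 0 (by simp [restA]),
      sum_miss (restB k) _ ⟨2, ht⟩
        (fun j hj => by rw [restB, Fin.mk.injEq] at hj; split_ifs at hj <;> omega)]
    simp [sum9, coreC, pC, cC, Fin.ext_iff]
    ring
  rcases (show 3 ≤ t from h).eq_or_lt with rfl | h
  · rw [sum_miss (restA k) _ ⟨3, ht⟩
        (fun j hj => by rw [restA, Fin.mk.injEq] at hj; split_ifs at hj <;> omega),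
      sum_hit (restB k) (restB_inj k) _ ⟨3, ht⟩ (Fin.last k) (by simp [restB])]
    simp [sum9, coreC, pC, cC, Fin.ext_iff]
    ring
  · rw [sum_hit (restA k) (restA_inj k) _ ⟨t, ht⟩ ⟨t - 3, by omega⟩
        (by simp only [restA, Fin.mk.injEq]; rw [if_neg (by omega)]; omega),
      sum_hit (restB k) (restB_inj k) _ ⟨t, ht⟩ ⟨t - 4, by omega⟩
        (by simp only [restB, Fin.mk.injEq]; rw [if_neg (by omega)]; omega),
      sum_miss (coreC k) _ ⟨t, ht⟩ (fun i hi => by
        rw [coreC, Fin.mk.injEq] at hi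
        have := pC_lt i
        omega)]
    rw [if_neg (by rw [Fin.ext_iff]; simp only [Fin.val_zero]; omega)]
    simp only
    omega

theorem r_pos (k : ℕ) (g : Goods k) : 0 < r k g := by
  rcases g with i | j | j
  · fin_cases i <;> simp [r, rC] <;> omega
  · simp only [r, Sum.elim_inr, Sum.elim_inl]
    omega
  · simp only [r, Sum.elim_inr]
    omega

theorem c_pos (k : ℕ) (g : Goods k) : 0 < c k g := by
  rcases g with i | j | j
  · fin_cases i <;> simp [c, cC] <;> omega
  · simp only [c, Sum.elim_inr, Sum.elim_inl]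
    split_ifs <;> omega
  · simp only [c, Sum.elim_inr]
    omega

theorem bundleVal_S {k n : ℕ} (f : Goods k → ℤ) (A : Goods k → Fin n) (t : Fin n) :
    bundleVal (fun g => (f g : ℝ)) A t = (S f A t : ℝ) := by
  unfold bundleVal S
  push_cast
  rfl

theorem bound_nonneg (k : ℕ) : (0 : ℝ) ≤ 1 - 1 / max (4 * (k : ℝ) + 24) (2 * k + 37) := by
  have hk0 : (0 : ℝ) ≤ k := Nat.cast_nonneg k
  have hM1 : 4 * (k : ℝ) + 24 ≤ max (4 * (k : ℝ) + 24) (2 * k + 37) := le_max_left _ _
  rw [sub_nonneg, div_le_one (by linarith)]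
  linarith

/-- The bad instance with `k + 4` agents. -/
theorem bad_instance {k : ℕ} (hk : 1 ≤ k) :
    ∃ w : Fin (k + 4) → Fin (2 * k + 11) → ℝ, (∀ i g, 0 < w i g) ∧
      ∀ α : ℝ, 1 - 1 / max (4 * (k : ℝ) + 24) (2 * k + 37) < α → ∀ A, ¬ IsAlphaMMS α w A := by
  set M : ℝ := max (4 * (k : ℝ) + 24) (2 * k + 37) with hM
  have hk0 : (0 : ℝ) ≤ k := Nat.cast_nonneg k
  have hM1 : 4 * (k : ℝ) + 24 ≤ M := le_max_left _ _
  have hM2 : 2 * (k : ℝ) + 37 ≤ M := le_max_right _ _
  have hM0 : 0 < M := by linarith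
  refine exists_bad (G := Goods k) (by simp; ring)
    (fun i g => if i.val < 2 then (r k g : ℝ) else (c k g : ℝ)) (fun i g => ?_)
    (fun i => if i.val < 2 then 4 * (k : ℝ) + 24 else 2 * k + 37) (fun i => ?_)
    (fun i => if i.val < 2 then PR k else PC k) (fun i j => ?_) _ (bound_nonneg k) (fun A => ?_)
  · split_ifs
    · exact_mod_cast r_pos k g
    · exact_mod_cast c_pos k g
  · split_ifs <;> linarith
  · split_ifs
    · rw [bundleVal_S, S_PR]
      push_cast
      rfl
    · rw [bundleVal_S, S_PC]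
      push_cast
      rfl
  · by_contra hcon
    push Not at hcon
    have key : ∀ K : ℝ, 0 < K → K ≤ M → K - 1 ≤ (1 - 1 / M) * K := by
      intro K h0 h1
      have : 1 / M * K ≤ 1 := by
        rw [one_div, inv_mul_le_iff₀ hM0]
        linarith
      linarith
    refine no_alloc hk A (fun t ht => ?_) (fun t ht => ?_)
    · have h := hcon t
      simp only [if_pos ht] at h
      rw [bundleVal_S] at h
      have h1 := lt_of_le_of_lt (key _ (by linarith) hM1) h
      have h2 : (4 * (k : ℤ) + 24 - 1 : ℤ) < S (r k) A t := by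
        exact_mod_cast h1
      omega
    · have ht' : ¬ t.val < 2 := by omega
      have h := hcon t
      simp only [if_neg ht'] at h
      rw [bundleVal_S] at h
      have h1 := lt_of_le_of_lt (key _ (by linarith) hM2) h
      have h2 : (2 * (k : ℤ) + 37 - 1 : ℤ) < S (c k) A t := by
        exact_mod_cast h1
      omega

end Pool.Agent.TH92.MMS.Family
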